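import Mathlib

/-! Star lower bound for multicolour Ramsey numbers of trees. -/

set_option autoImplicit false

namespace Pool.Agent.Y422.T

/-- The star on `Fin n` with centre the vertex of value `0`. -/
def star (n : ℕ) : SimpleGraph (Fin n) where
  Adj a b := a ≠ b ∧ (a.val = 0 ∨ b.val = 0)
  symm := ⟨fun _ _ h => ⟨h.1.symm, h.2.symm⟩⟩
  loopless := ⟨fun _ h => h.1 rfl⟩

theorem star_adj {n : ℕ} (a b : Fin n) : (star n).Adj a b ↔ a ≠ b ∧ (a.val = 0 ∨ b.val = 0) :=
  Iff.rfl

theorem star_connected {n : ℕ} (hn : 1 ≤ n) : (star n).Connected := by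
  have : Nonempty (Fin n) := ⟨⟨0, hn⟩⟩
  refine ⟨?_⟩
  have h0 : ∀ a : Fin n, (star n).Reachable a ⟨0, hn⟩ := by
    intro a
    by_cases ha : a = ⟨0, hn⟩
    · rw [ha]
    · exact SimpleGraph.Adj.reachable ⟨ha, Or.inr rfl⟩
  intro a b
  exact (h0 a).trans (h0 b).symm

theorem star_card_edges {n : ℕ} (hn : 1 ≤ n) [Fintype (star n).edgeSet] :
    (star n).edgeFinset.card + 1 = n := by
  classical
  have h : (star n).edgeFinset =
      ((Finset.univ : Finset (Fin n)).erase ⟨0, hn⟩).image (fun b => s(⟨0, hn⟩, b)) := by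
    ext e
    induction e with
    | _ x y =>
      rw [SimpleGraph.mem_edgeFinset, SimpleGraph.mem_edgeSet, star_adj]
      simp only [Finset.mem_image, Finset.mem_erase, Finset.mem_univ, and_true]
      constructor
      · rintro ⟨hxy, hx | hy⟩
        · refine ⟨y, ?_, ?_⟩
          · intro h
            apply hxy
            apply Fin.ext
            rw [h]; exact hx
          · have : x = ⟨0, hn⟩ := Fin.ext hx
            rw [this]
        · refine ⟨x, ?_, ?_⟩
          · intro h
            apply hxy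
            apply Fin.ext
            rw [h]; exact hy.symm
          · have : y = ⟨0, hn⟩ := Fin.ext hy
            rw [this, Sym2.eq_swap]
      · rintro ⟨b, hb, hbe⟩
        rw [Sym2.eq_iff] at hbe
        rcases hbe with ⟨h1, h2⟩ | ⟨h1, h2⟩
        · subst h1; subst h2
          exact ⟨fun h => hb h.symm, Or.inl rfl⟩
        · subst h1; subst h2
          exact ⟨fun h => hb h, Or.inr rfl⟩
  rw [h, Finset.card_image_of_injective, Finset.card_erase_of_mem (Finset.mem_univ _),
    Finset.card_univ, Fintype.card_fin]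
  · omega
  · intro a b hab
    simp only [Sym2.eq_iff] at hab
    rcases hab with ⟨_, h⟩ | ⟨h1, h2⟩
    · exact h
    · rw [h2, ← h1]

theorem star_isTree {n : ℕ} (hn : 1 ≤ n) : (star n).IsTree := by
  classical
  rw [SimpleGraph.isTree_iff_connected_and_card]
  refine ⟨star_connected hn, ?_⟩
  rw [Nat.card_eq_fintype_card, Nat.card_eq_fintype_card, Fintype.card_fin,
    ← SimpleGraph.edgeFinset_card]
  exact star_card_edges hn

/-- number of residues below `k * q` that are congruent to `i` modulo `k`. -/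
theorem card_residue (k q : ℕ) (hk : 0 < k) (i : Fin k) :
    (Finset.univ.filter fun r : Fin (k * q) => r.val % k = i.val).card ≤ q := by
  classical
  have h : ((Finset.univ.filter fun r : Fin (k * q) => r.val % k = i.val)).card
      ≤ (Finset.range q).card := by
    refine Finset.card_le_card_of_injOn (fun r => r.val / k) ?_ ?_
    · intro r _
      simp only [Finset.coe_range, Set.mem_Iio]
      exact Nat.div_lt_of_lt_mul r.2
    · intro a ha b hb hab
      simp only [Finset.coe_filter, Finset.mem_univ, true_and, Set.mem_setOf_eq] at ha hb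
      apply Fin.ext
      have h1 := Nat.div_add_mod a.val k
      have h2 := Nat.div_add_mod b.val k
      simp only at hab
      rw [← h1, ← h2, ha, hb, hab]
  simpa using h

/-- The cyclic colouring of `K_{k q}`. -/
def cyc (k q : ℕ) (hk : 0 < k) (x y : Fin (k * q)) : Fin k :=
  ⟨((x.val + y.val) % (k * q)) % k, Nat.mod_lt _ hk⟩

theorem cyc_symm (k q : ℕ) (hk : 0 < k) (x y : Fin (k * q)) : cyc k q hk x y = cyc k q hk y x := by
  apply Fin.ext
  show ((x.val + y.val) % (k * q)) % k = ((y.val + x.val) % (k * q)) % k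
  rw [Nat.add_comm]

theorem cyc_card (k q : ℕ) (hk : 0 < k) (x : Fin (k * q)) (i : Fin k) :
    (Finset.univ.filter fun y : Fin (k * q) => cyc k q hk x y = i).card ≤ q := by
  classical
  refine le_trans ?_ (card_residue k q hk i)
  have hpos : 0 < k * q := lt_of_le_of_lt (Nat.zero_le _) x.2
  refine Finset.card_le_card_of_injOn
    (fun y => (⟨(x.val + y.val) % (k * q), Nat.mod_lt _ hpos⟩ : Fin (k * q))) ?_ ?_
  · intro y hy
    simp only [Finset.coe_filter, Finset.mem_univ, true_and, Set.mem_setOf_eq] at hy ⊢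
    have := congrArg Fin.val hy
    exact this
  · intro a _ b _ hab
    have h := congrArg Fin.val hab
    simp only at h
    have h2 : x.val + a.val ≡ x.val + b.val [MOD (k * q)] := h
    have h3 : a.val ≡ b.val [MOD (k * q)] := Nat.ModEq.add_left_cancel' x.val h2
    have h4 := Nat.ModEq.eq_of_lt_of_lt h3 a.2 b.2
    exact Fin.ext h4

theorem star_lower (k n : ℕ) (hk : 1 ≤ k) (hn : 1 ≤ n) :
    ∃ T : SimpleGraph (Fin n), T.IsTree ∧
        ∃ c : Fin (k * n - 2 * k) → Fin (k * n - 2 * k) → Fin k, (∀ x y, c x y = c y x) ∧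
          ∀ i : Fin k, ∀ f : Fin n ↪ Fin (k * n - 2 * k),
            ∃ a b, T.Adj a b ∧ c (f a) (f b) ≠ i := by
  classical
  refine ⟨star n, star_isTree hn, ?_⟩
  have hM : k * n - 2 * k = k * (n - 2) := by
    rw [Nat.mul_sub, Nat.mul_comm 2 k]
  rw [hM]
  refine ⟨cyc k (n - 2) hk, cyc_symm k (n - 2) hk, ?_⟩
  intro i f
  by_contra hcon
  push Not at hcon
  have hn3 : 3 ≤ n := by
    by_contra h
    have h0 : n - 2 = 0 := by omega
    have h5 : k * (n - 2) = 0 := by rw [h0, Nat.mul_zero]
    have h6 : (f ⟨0, hn⟩).val < k * (n - 2) := (f ⟨0, hn⟩).2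
    omega
  have h1 : ((Finset.univ : Finset (Fin n)).erase ⟨0, hn⟩).card ≤
      (Finset.univ.filter fun y : Fin (k * (n - 2)) =>
        cyc k (n - 2) hk (f ⟨0, hn⟩) y = i).card := by
    refine Finset.card_le_card_of_injOn (fun b => f b) ?_ ?_
    · intro b hb
      simp only [Finset.coe_erase, Finset.coe_univ, Set.mem_diff, Set.mem_univ, true_and,
        Set.mem_singleton_iff] at hb
      simp only [Finset.coe_filter, Finset.mem_univ, true_and, Set.mem_setOf_eq]
      exact hcon _ _ ⟨fun h => hb h.symm, Or.inl rfl⟩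
    · intro a _ b _ hab
      exact f.injective hab
  rw [Finset.card_erase_of_mem (Finset.mem_univ _), Finset.card_univ, Fintype.card_fin] at h1
  have h2 := cyc_card k (n - 2) hk (f ⟨0, hn⟩) i
  omega

end Pool.Agent.Y422.T
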